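import Pool.Agent.Helper91.IP.Defs

/-!
# Project IP, piece E2: the heat kernel of the interchange process
-/

namespace Pool.Agent.Helper90.IP

open Finset Equiv Matrix Pool.Agent.Helper91.IP

variable {V : Type} [Fintype V] [DecidableEq V]

section expLemmas

attribute [local instance] Matrix.linftyOpNormedRing Matrix.linftyOpNormedAlgebra

variable {ι : Type} [Fintype ι] [DecidableEq ι]

theorem E2_hasSum (M : Matrix ι ι ℝ) :
    HasSum (fun n : ℕ => ((n.factorial : ℝ)⁻¹) • M ^ n) (NormedSpace.exp M) := by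
  have := NormedSpace.exp_series_hasSum_exp' (𝕂 := ℝ) M
  exact this

theorem E2_exp_nonneg (M : Matrix ι ι ℝ) (h : ∀ i j, 0 ≤ M i j) (i j : ι) :
    0 ≤ NormedSpace.exp M i j := by
  have hp : ∀ n : ℕ, ∀ i j, 0 ≤ (M ^ n) i j := by
    intro n
    induction n with
    | zero =>
      intro i j
      rw [pow_zero, Matrix.one_apply]
      split_ifs <;> norm_num
    | succ n ih =>
      intro i j
      rw [pow_succ, Matrix.mul_apply]
      exact Finset.sum_nonneg fun k _ => mul_nonneg (ih i k) (h k j)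
  have hs := (E2_hasSum M).map (Matrix.entryAddMonoidHom ℝ i j)
    (by
      show Continuous fun A : Matrix ι ι ℝ => A i j
      exact continuous_id.matrix_elem i j)
  refine hs.nonneg ?_
  intro n
  show 0 ≤ (((n.factorial : ℝ)⁻¹) • M ^ n) i j
  rw [Matrix.smul_apply, smul_eq_mul]
  exact mul_nonneg (inv_nonneg.mpr (Nat.cast_nonneg _)) (hp n i j)

theorem E2_exp_mulVec (M : Matrix ι ι ℝ) (v : ι → ℝ) (h : M *ᵥ v = 0) :
    NormedSpace.exp M *ᵥ v = v := by
  have hs := (E2_hasSum M).map (Matrix.mulVec.addMonoidHomLeft v)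
    (by
      show Continuous fun A : Matrix ι ι ℝ => A *ᵥ v
      exact continuous_id.matrix_mulVec continuous_const)
  have h0 : ∀ n : ℕ, n ≠ 0 → (((n.factorial : ℝ)⁻¹) • M ^ n) *ᵥ v = 0 := by
    intro n hn
    obtain ⟨m, rfl⟩ := Nat.exists_eq_succ_of_ne_zero hn
    rw [Matrix.smul_mulVec, pow_succ, ← Matrix.mulVec_mulVec, h, Matrix.mulVec_zero, smul_zero]
  have h1 : HasSum ((Matrix.mulVec.addMonoidHomLeft v) ∘
      fun n : ℕ => ((n.factorial : ℝ)⁻¹) • M ^ n) v := by
    have := hasSum_single (f := (Matrix.mulVec.addMonoidHomLeft v) ∘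
      fun n : ℕ => ((n.factorial : ℝ)⁻¹) • M ^ n) 0 (fun n hn => h0 n hn)
    have h2 : ((Matrix.mulVec.addMonoidHomLeft v) ∘
      fun n : ℕ => ((n.factorial : ℝ)⁻¹) • M ^ n) 0 = v := by
      show (((Nat.factorial 0 : ℕ) : ℝ)⁻¹ • M ^ 0) *ᵥ v = v
      simp
    rwa [h2] at this
  exact hs.unique h1

end expLemmas

theorem E2_Lm_comm_Rm (h g : Perm V) : Lm h * Rm g = Rm g * Lm h := by
  ext s s'
  rw [Matrix.mul_apply, Matrix.mul_apply, Finset.sum_eq_single (h * s),
    Finset.sum_eq_single (s * g)]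
  · simp only [Lm, Rm, if_true, one_mul, mul_assoc]
  · intro b _ hb
    simp [Rm, hb]
  · simp
  · intro b _ hb
    simp [Lm, hb]
  · simp

theorem E2_Lm_swap_symm (x y : V) : (Lm (swap x y)).IsSymm := by
  ext s s'
  rw [Matrix.transpose_apply]
  simp only [Lm]
  have : (s = swap x y * s') ↔ (s' = swap x y * s) := by
    constructor
    · intro h
      rw [h, ← mul_assoc, Equiv.swap_mul_self, one_mul]
    · intro h
      rw [h, ← mul_assoc, Equiv.swap_mul_self, one_mul]
  simp only [this]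

theorem E2_Am_isSymm (w : V → V → ℝ) : (Am w).IsSymm := by
  unfold Am
  rw [Matrix.IsSymm, Matrix.transpose_smul, Matrix.transpose_sum]
  congr 1
  refine Finset.sum_congr rfl fun x _ => ?_
  rw [Matrix.transpose_sum]
  refine Finset.sum_congr rfl fun y _ => ?_
  rw [Matrix.transpose_smul, Matrix.transpose_sub, Matrix.transpose_one, E2_Lm_swap_symm x y]

theorem E2_Am_comm_Rm (w : V → V → ℝ) (g : Perm V) : Am w * Rm g = Rm g * Am w := by
  unfold Am
  rw [Matrix.smul_mul, Matrix.mul_smul, Matrix.sum_mul, Matrix.mul_sum]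
  congr 1
  refine Finset.sum_congr rfl fun x _ => ?_
  rw [Matrix.sum_mul, Matrix.mul_sum]
  refine Finset.sum_congr rfl fun y _ => ?_
  rw [Matrix.smul_mul, Matrix.mul_smul, Matrix.sub_mul, Matrix.mul_sub, Matrix.one_mul,
    Matrix.mul_one, E2_Lm_comm_Rm]

theorem E2_Am_one (w : V → V → ℝ) : Am w *ᵥ (fun _ => (1 : ℝ)) = 0 := by
  have h : ∀ x y : V, (1 - Lm (swap x y)) *ᵥ (fun _ : Perm V => (1 : ℝ)) = 0 := by
    intro x y
    rw [Matrix.sub_mulVec, Matrix.one_mulVec]
    ext s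
    simp [Matrix.mulVec, dotProduct, Lm]
  unfold Am
  rw [Matrix.smul_mulVec, Matrix.sum_mulVec]
  simp only [Matrix.sum_mulVec, Matrix.smul_mulVec, h, smul_zero, Finset.sum_const_zero]

/-- IP-E2 -/
theorem Kt_isSymm (w : V → V → ℝ) (t : ℝ) : (Kt w t).IsSymm := by
  unfold Kt
  rw [Matrix.IsSymm, ← Matrix.exp_transpose, Matrix.transpose_neg, Matrix.transpose_smul,
    E2_Am_isSymm w]

/-- IP-E2 -/
theorem Kt_add (w : V → V → ℝ) (t u : ℝ) : Kt w (t + u) = Kt w t * Kt w u := by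
  unfold Kt
  rw [add_smul, neg_add, Matrix.exp_add_of_commute]
  exact (((Commute.refl (Am w)).smul_left t).smul_right u).neg_left.neg_right

/-- IP-E2 -/
theorem Kt_nonneg (w : V → V → ℝ) (hw : ∀ x y, 0 ≤ w x y) {t : ℝ} (ht : 0 ≤ t)
    (s s' : Perm V) : 0 ≤ Kt w t s s' := by
  set B : Matrix (Perm V) (Perm V) ℝ := (1 / 2 : ℝ) • ∑ x, ∑ y, w x y • Lm (swap x y) with hB
  set c : ℝ := (1 / 2 : ℝ) * ∑ x, ∑ y, w x y with hc
  have hA : Am w = c • (1 : Matrix (Perm V) (Perm V) ℝ) - B := by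
    rw [hB, hc]
    unfold Am
    simp only [smul_sub, Finset.sum_sub_distrib, Finset.sum_smul, mul_smul]
  have h1 : -(t • Am w) = t • B + (-(t * c)) • (1 : Matrix (Perm V) (Perm V) ℝ) := by
    rw [hA, smul_sub, smul_smul, neg_smul]
    abel
  have h2 : Kt w t = NormedSpace.exp (t • B) *
      NormedSpace.exp ((-(t * c)) • (1 : Matrix (Perm V) (Perm V) ℝ)) := by
    unfold Kt
    rw [h1, Matrix.exp_add_of_commute]
    exact ((Commute.one_right (t • B)).smul_right (-(t * c)))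
  have h3 : NormedSpace.exp ((-(t * c)) • (1 : Matrix (Perm V) (Perm V) ℝ)) =
      (Real.exp (-(t * c))) • (1 : Matrix (Perm V) (Perm V) ℝ) := by
    have e1 : (-(t * c)) • (1 : Matrix (Perm V) (Perm V) ℝ) =
        Matrix.diagonal fun _ => (-(t * c)) := by
      ext i j
      simp [Matrix.one_apply, Matrix.diagonal_apply]
    have e2 : (Real.exp (-(t * c))) • (1 : Matrix (Perm V) (Perm V) ℝ) =
        Matrix.diagonal fun _ => (Real.exp (-(t * c))) := by
      ext i j
      simp [Matrix.one_apply, Matrix.diagonal_apply]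
    rw [e1, e2, Matrix.exp_diagonal]
    congr 1
    funext i
    rw [Pi.coe_exp, Real.exp_eq_exp_ℝ]
  rw [h2, h3, Matrix.mul_smul, Matrix.mul_one, Matrix.smul_apply, smul_eq_mul]
  refine mul_nonneg (Real.exp_pos _).le (E2_exp_nonneg _ ?_ s s')
  intro i j
  rw [hB, Matrix.smul_apply, Matrix.smul_apply, smul_eq_mul, smul_eq_mul]
  refine mul_nonneg ht (mul_nonneg (by norm_num) ?_)
  rw [Matrix.sum_apply]
  refine Finset.sum_nonneg fun x _ => ?_
  rw [Matrix.sum_apply]
  refine Finset.sum_nonneg fun y _ => ?_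
  rw [Matrix.smul_apply, smul_eq_mul]
  refine mul_nonneg (hw x y) ?_
  simp only [Lm]
  split_ifs <;> norm_num

theorem E2_Kt_comm_Rm (w : V → V → ℝ) (t : ℝ) (g : Perm V) : Kt w t * Rm g = Rm g * Kt w t := by
  unfold Kt
  have h : Commute (-(t • Am w)) (Rm g) := by
    refine Commute.neg_left (Commute.smul_left ?_ t)
    exact E2_Am_comm_Rm w g
  exact (h.exp_left).eq

/-- IP-E2 -/
theorem Kt_trans (w : V → V → ℝ) (t : ℝ) (s s' : Perm V) :
    Kt w t s s' = Kt w t 1 (s' * s⁻¹) := by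
  have h := congrFun (congrFun (E2_Kt_comm_Rm w t s) 1) s'
  rw [Matrix.mul_apply, Matrix.mul_apply] at h
  simp only [Rm, one_mul] at h
  have h1 : ∑ j, Kt w t 1 j * (if s' = j * s then (1 : ℝ) else 0) = Kt w t 1 (s' * s⁻¹) := by
    rw [Finset.sum_eq_single (s' * s⁻¹)]
    · simp
    · intro b _ hb
      have : s' ≠ b * s := by
        intro h'
        apply hb
        rw [h', mul_inv_cancel_right]
      simp [this]
    · simp
  have h2 : ∑ j, (if j = s then (1 : ℝ) else 0) * Kt w t j s' = Kt w t s s' := by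
    simp
  rw [h1, h2] at h
  exact h.symm

/-- IP-E2 -/
theorem Kt_row (w : V → V → ℝ) (t : ℝ) (s : Perm V) : ∑ s', Kt w t s s' = 1 := by
  have h : Kt w t *ᵥ (fun _ => (1 : ℝ)) = fun _ => 1 := by
    unfold Kt
    apply E2_exp_mulVec
    rw [Matrix.neg_mulVec, Matrix.smul_mulVec, E2_Am_one, smul_zero, neg_zero]
  have h' := congrFun h s
  simpa [Matrix.mulVec, dotProduct] using h'

end Pool.Agent.Helper90.IP
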